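import Pool.Agent.Helper76.PP.Goals3

/-!
# Packet PP-BKAP: the field `κ` and its characters
-/

set_option autoImplicit false

open Polynomial Module

namespace Pool.Agent.Helper12.PP

section kap

variable (p : ℕ) [Fact p.Prime]

lemma kap_dvd (m : ℕ) (hm : 0 < m) (P : (ZMod p)[X]) (irr : Irreducible P)
    (cop : ∀ e : ℕ, 0 < e → e < m → e ∣ m → IsCoprime P (X ^ e - 1))
    (dvdP : P ∣ X ^ m - 1) (e : ℕ) (he : AdjoinRoot.root P ^ e = 1) : m ∣ e := by
  have hm1 : AdjoinRoot.root P ^ m = 1 := by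
    have h := (AdjoinRoot.mk_eq_zero (f := P)).2 dvdP
    rw [map_sub, map_pow, AdjoinRoot.mk_X, map_one, sub_eq_zero] at h
    exact h
  have hd : AdjoinRoot.root P ^ (Nat.gcd e m) = 1 := pow_gcd_eq_one.2 ⟨he, hm1⟩
  have hdm : Nat.gcd e m ∣ m := Nat.gcd_dvd_right e m
  have hd0 : 0 < Nat.gcd e m := Nat.gcd_pos_of_pos_right e hm
  rcases lt_or_eq_of_le (Nat.le_of_dvd hm hdm) with h | h
  · exfalso
    have h1 := cop _ hd0 h hdm
    have h2 : P ∣ X ^ (Nat.gcd e m) - 1 := by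
      rw [← AdjoinRoot.mk_eq_zero, map_sub, map_pow, AdjoinRoot.mk_X, map_one, hd, sub_self]
    exact irr.not_isUnit (h1.isUnit_of_dvd' dvd_rfl h2)
  · rw [← h]; exact Nat.gcd_dvd_left e m

lemma kap_span (P : (ZMod p)[X]) (tr : AdjoinRoot P →ₗ[ZMod p] ZMod p) (η : AdjoinRoot P)
    (h : ∀ i : ℕ, tr (η * AdjoinRoot.root P ^ i) = 0) (y : AdjoinRoot P) : tr (η * y) = 0 := by
  obtain ⟨g, rfl⟩ := AdjoinRoot.mk_surjective y
  induction g using Polynomial.induction_on' with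
  | add a b ha hb => rw [map_add, mul_add, map_add, ha, hb, add_zero]
  | monomial n a =>
    rw [← C_mul_X_pow_eq_monomial, map_mul (AdjoinRoot.mk P), map_pow, AdjoinRoot.mk_X,
      AdjoinRoot.mk_C]
    have : η * ((AdjoinRoot.of P) a * AdjoinRoot.root P ^ n) =
        a • (η * AdjoinRoot.root P ^ n) := by
      rw [Algebra.smul_def, AdjoinRoot.algebraMap_eq]; ring
    rw [this, map_smul, h, smul_zero]

lemma kap_psi (ψ₁ : AddChar (ZMod p) ℂ) (h : ψ₁ ≠ 1) (a : ZMod p) (ha : ψ₁ a = 1) : a = 0 := by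
  by_contra h0
  apply h
  ext x
  have hx : x = (x * a⁻¹).val • a := by
    rw [nsmul_eq_mul, ZMod.natCast_zmod_val, inv_mul_cancel_right₀ h0]
  rw [hx, AddChar.map_nsmul_eq_pow, ha, one_pow, AddChar.one_apply]

lemma kap_fin (P : (ZMod p)[X]) (hP : P ≠ 0) : Finite (AdjoinRoot P) := by
  have : Module.Finite (ZMod p) (AdjoinRoot P) := (AdjoinRoot.powerBasis hP).finite
  exact Module.finite_of_finite (ZMod p)

lemma kap_eta (P : (ZMod p)[X]) (irr : Irreducible P) (tr : AdjoinRoot P →ₗ[ZMod p] ZMod p)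
    (htr : tr ≠ 0) (η : AdjoinRoot P) (h : ∀ y, tr (η * y) = 0) : η = 0 := by
  have : Fact (Irreducible P) := ⟨irr⟩
  by_contra h0
  apply htr
  apply LinearMap.ext
  intro y
  have := h (η⁻¹ * y)
  rw [mul_inv_cancel_left₀ h0] at this
  rw [this, LinearMap.zero_apply]

/-- The character attached to `β`. -/
noncomputable def kchi (P : (ZMod p)[X]) (tr : AdjoinRoot P →ₗ[ZMod p] ZMod p)
    (ψ₁ : AddChar (ZMod p) ℂ) (r : ℕ) (β : Fin r → AdjoinRoot P) :
    AddChar (Fin r → AdjoinRoot P) ℂ where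
  toFun x := ψ₁ (tr (∑ j, β j * x j))
  map_zero_eq_one' := by simp
  map_add_eq_mul' x y := by
    rw [← AddChar.map_add_eq_mul, ← map_add, ← Finset.sum_add_distrib]
    simp only [Pi.add_apply, mul_add]

lemma kap_chi (P : (ZMod p)[X]) (irr : Irreducible P) (tr : AdjoinRoot P →ₗ[ZMod p] ZMod p)
    (htr : tr ≠ 0) (ψ₁ : AddChar (ZMod p) ℂ) (hψ : ψ₁ ≠ 1) (r : ℕ)
    (χ : AddChar (Fin r → AdjoinRoot P) ℂ) : ∃ β : Fin r → AdjoinRoot P,
      ∀ x, χ x = ψ₁ (tr (∑ j, β j * x j)) := by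
  classical
  have := kap_fin p P irr.ne_zero
  let _ : Fintype (AdjoinRoot P) := Fintype.ofFinite _
  have hinj : Function.Injective (kchi p P tr ψ₁ r) := by
    intro β β' h
    funext j
    rw [← sub_eq_zero]
    apply kap_eta p P irr tr htr
    intro y
    apply kap_psi p ψ₁ hψ
    have h1 := DFunLike.congr_fun h (Pi.single j y)
    have h2 : ∀ b : Fin r → AdjoinRoot P, kchi p P tr ψ₁ r b (Pi.single j y) =
        ψ₁ (tr (b j * y)) := by
      intro b
      show ψ₁ (tr (∑ i, b i * (Pi.single j y : Fin r → AdjoinRoot P) i)) = _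
      congr 2
      rw [Finset.sum_eq_single j]
      · rw [Pi.single_eq_same]
      · intro i _ hi
        rw [Pi.single_eq_of_ne hi, mul_zero]
      · intro hj
        exact absurd (Finset.mem_univ j) hj
    rw [h2, h2] at h1
    rw [sub_mul, map_sub, AddChar.map_sub_eq_div, h1, div_self]
    exact (AddChar.val_isUnit _ _).ne_zero
  have hcard : Nat.card (Fin r → AdjoinRoot P) = Nat.card (AddChar (Fin r → AdjoinRoot P) ℂ) := by
    rw [Nat.card_eq_fintype_card, Nat.card_eq_fintype_card]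
    exact AddChar.card_eq.symm
  have hbij : Function.Bijective (kchi p P tr ψ₁ r) :=
    (Nat.bijective_iff_injective_and_card _).2 ⟨hinj, hcard⟩
  obtain ⟨β, hβ⟩ := hbij.2 χ
  exact ⟨β, fun x ↦ by rw [← hβ]; rfl⟩

lemma kap_surj (P : (ZMod p)[X]) (tr : AdjoinRoot P →ₗ[ZMod p] ZMod p)
    (htr : tr ≠ 0) (a : ZMod p) : ∃ x, tr x = a := by
  have : ∃ x, tr x ≠ 0 := by
    by_contra h
    push Not at h
    exact htr (LinearMap.ext h)
  obtain ⟨x, hx⟩ := this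
  exact ⟨(a * (tr x)⁻¹) • x, by rw [map_smul, smul_eq_mul, inv_mul_cancel_right₀ hx]⟩

lemma kap_tr (P : (ZMod p)[X]) (irr : Irreducible P) :
    ∃ tr : AdjoinRoot P →ₗ[ZMod p] ZMod p, tr ≠ 0 := by
  have : Fact (Irreducible P) := ⟨irr⟩
  obtain ⟨f, hf⟩ := Module.Projective.exists_dual_ne_zero (ZMod p)
    (one_ne_zero : (1 : AdjoinRoot P) ≠ 0)
  exact ⟨f, fun h ↦ hf (by rw [h, LinearMap.zero_apply])⟩

lemma kap_ex : ∃ ψ₁ : AddChar (ZMod p) ℂ, ψ₁ ≠ 1 := by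
  have : NeZero p := ⟨(Fact.out : p.Prime).ne_zero⟩
  have : Fact (1 < p) := ⟨(Fact.out : p.Prime).one_lt⟩
  obtain ⟨ψ, hψ⟩ := (AddChar.exists_apply_ne_zero (α := ZMod p) (a := 1)).2 one_ne_zero
  exact ⟨ψ, fun h ↦ hψ (by rw [h]; rfl)⟩

end kap

theorem b_kap : Pool.Agent.Helper76.PP.B_KAP := by
  intro p _ k _ _ m ζ Φ P hP
  have hm : 0 < m := lt_trans zero_lt_one hP.one_lt
  refine ⟨?_, kap_dvd p m hm P hP.irr hP.cop hP.dvdP, kap_tr p P hP.irr, kap_ex p, ?_⟩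
  · have h := (AdjoinRoot.mk_eq_zero (f := P)).2 hP.dvdP
    rw [map_sub, map_pow, AdjoinRoot.mk_X, map_one, sub_eq_zero] at h
    exact h
  · intro tr htr
    refine ⟨fun η h ↦ kap_eta p P hP.irr tr htr η (kap_span p P tr η h), ?_⟩
    intro ψ₁ hψ
    refine ⟨kap_psi p ψ₁ hψ, kap_chi p P hP.irr tr htr ψ₁ hψ, ?_⟩
    intro h
    apply one_ne_zero (α := ZMod p)
    apply kap_psi p ψ₁ hψ
    obtain ⟨x, hx⟩ := kap_surj p P tr htr 1
    have h1 := DFunLike.congr_fun h x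
    rw [← hx]
    exact h1

end Pool.Agent.Helper12.PP
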